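import Pool.Agent.X55.Fam.LinCor

/-!
# The forms `t n + 1` at discrete logarithms, uniformly in the coefficients

Let `P` be a large prime and `g` a primitive root modulo `P`. We consider the values `t j * n + 1` (`j < l`), for
arbitrary positive integers `t j ≤ P ^ B`, where `B` is arbitrary, for the exponents `n`
* for which the residue of `g ^ n` modulo `P` lies in a given interval (so that `n` is the discrete logarithm of an
  element of an interval); the exponents run over any interval of a length `H < P`, the residues over any interval of a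
  length `K ≤ P`, with `H K ≥ P ^ (3 / 2 + ε)`;
* for which `g ^ n + s` lies in a given coset of a subgroup `S` of the residues, where `|S| H ≥ P ^ (3 / 2 + ε)`;
* for which `g ^ n + s` is again a primitive root, in the intervals of a length `H` with `P ^ (1 / 2 + ε) ≤ H < P`.
Each time the number of the `n` for which all the values have a bounded number of prime factors, all greater than
`P ^ δ`, has the expected order of magnitude `N V(P)`, where `N` is the expected number of the `n` and `V(P)` is the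
product of the local factors over the primes up to `P`; the number of the `n` for which all the values are primes is at
most of this order. The constants depend only on `l`, `ε`, `B`: everything is uniform in the coefficients. The number
of the `n` for which no value has a prime factor up to `y` is given by an asymptotic formula, which is also uniform.

The proof combines a sieve which is uniform in the removed residue classes and estimates of the multiplicative
characters over intervals and over shifted subgroups.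
-/

set_option autoImplicit false

namespace Pool.Agent.Results.MP_d018b2_nt.DiscreteLogarithms

open Finset

/-- `m ≠ 0` has at most `r` prime factors, counted with multiplicity, all of them greater than `x`. -/
def AlmostPrime (r : ℕ) (x : ℝ) (m : ℕ) : Prop :=
  m ≠ 0 ∧ m.primeFactorsList.length ≤ r ∧ ∀ q : ℕ, q.Prime → q ∣ m → x < q

/-- the number of the `n` in `(M, M + H]` with the property `R` for which all the `t j * n + 1` are almost primes -/
noncomputable def almost {l : ℕ} (t : Fin l → ℕ) (r : ℕ) (x : ℝ) (M H : ℕ) (R : ℕ → Prop) : ℕ :=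
  Set.ncard {n : ℕ | M < n ∧ n ≤ M + H ∧ R n ∧ ∀ j, AlmostPrime r x (t j * n + 1)}

/-- the number of the `n` in `(M, M + H]` with the property `R` for which all the `t j * n + 1` are primes -/
noncomputable def primes {l : ℕ} (t : Fin l → ℕ) (M H : ℕ) (R : ℕ → Prop) : ℕ :=
  Set.ncard {n : ℕ | M < n ∧ n ≤ M + H ∧ R n ∧ ∀ j, (t j * n + 1).Prime}

/-- the number of the `n` in `(M, M + H]` with the property `R` for which no `t j * n + 1` has a prime factor up to
`y` -/
noncomputable def rough {l : ℕ} (t : Fin l → ℕ) (y M H : ℕ) (R : ℕ → Prop) : ℕ :=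
  Set.ncard {n : ℕ | M < n ∧ n ≤ M + H ∧ R n ∧ ∀ q : ℕ, q.Prime → q ≤ y → ∀ j, ¬ q ∣ t j * n + 1}

/-- the product over the primes `q ≤ y` of `1 - ν(q) / q`, where `ν(q)` is the number of the residues `n` modulo `q` for
which one of the values is divisible by `q` -/
noncomputable def V {l : ℕ} (t : Fin l → ℕ) (y : ℕ) : ℝ :=
  ∏ q ∈ (Icc 1 y).filter Nat.Prime, (1 - (Set.ncard {n : ℕ | n < q ∧ ∃ j, q ∣ t j * n + 1} : ℝ) / q)

/-- the bounds for the interval `(M, M + H]` and the property `R`, with the expected number `N` -/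
def Bounds {l : ℕ} (t : Fin l → ℕ) (P r : ℕ) (δ c C : ℝ) (B M H : ℕ) (R : ℕ → Prop) (N : ℝ) : Prop :=
  (M + H ≤ P ^ B → (∀ j, t j ≤ P ^ B) → c * (N * V t P) ≤ almost t r ((P : ℝ) ^ δ) M H R) ∧
  (primes t M H R : ℝ) ≤ C * (N * V t P)

/-- the asymptotic formula for the interval `(M, M + H]` and the property `R`, with the expected number `N` -/
def Rough {l : ℕ} (t : Fin l → ℕ) (η : ℝ) (M H y : ℕ) (R : ℕ → Prop) (N : ℝ) : Prop :=
  |(rough t y M H R : ℝ) - N * V t y| ≤ η * (N * V t y)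

lemma val (t n : ℕ) : ((t : ℤ) * n + 1).natAbs = t * n + 1 := by
  rw [show ((t : ℤ) * n + 1) = ((t * n + 1 : ℕ) : ℤ) by push_cast; ring, Int.natAbs_natCast]

lemma dv (q t n : ℕ) : (q : ℤ) ∣ (t : ℤ) * n + 1 ↔ q ∣ t * n + 1 := by
  rw [show ((t : ℤ) * n + 1) = ((t * n + 1 : ℕ) : ℤ) by push_cast; ring, Int.natCast_dvd_natCast]

lemma V_eq {l : ℕ} (t : Fin l → ℕ) (y : ℕ) :
    Pool.Agent.X55.Fam.VL (fun j => (t j : ℤ)) (fun _ => 1) y = V t y := by
  unfold Pool.Agent.X55.Fam.VL V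
  simp only [dv]

lemma conv {l P r : ℕ} {δ c C : ℝ} {B M H : ℕ} {R : ℕ → Prop} {N : ℝ} {t : Fin l → ℕ} (hP : 1 ≤ P)
    (h : Pool.Agent.X55.Fam.BothL (fun j => (t j : ℤ)) (fun _ => 1) P r δ c C B M H R N) :
    Bounds t P r δ c C B M H R N := by
  obtain ⟨h1, h2⟩ := h
  unfold Pool.Agent.X55.Fam.LoT at h1
  unfold Pool.Agent.X55.Fam.UpL at h2
  rw [V_eq] at h1 h2
  simp only [val] at h1 h2
  refine ⟨fun hM ht => h1 hM (fun j => ?_) (fun j => ?_), h2⟩
  · rw [Int.natAbs_natCast]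
    exact ht j
  · simpa using Nat.one_le_pow _ _ hP

lemma convA {l : ℕ} {η : ℝ} {M H y : ℕ} {R : ℕ → Prop} {N : ℝ} {t : Fin l → ℕ}
    (h : Pool.Agent.X55.Fam.AsL (fun j => (t j : ℤ)) (fun _ => 1) η M H y R N) : Rough t η M H y R N := by
  unfold Pool.Agent.X55.Fam.AsL at h
  rw [V_eq] at h
  simp only [dv] at h
  exact h

lemma adm {l : ℕ} (t : Fin l → ℕ) (q : ℕ) (hq : q.Prime) : ∃ n : ℕ, ∀ j, ¬ (q : ℤ) ∣ (t j : ℤ) * n + 1 := by
  refine ⟨0, fun j h => ?_⟩
  rw [Nat.cast_zero, mul_zero, zero_add] at h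
  have := Int.eq_one_of_dvd_one (by positivity) h
  exact hq.one_lt.ne' (by exact_mod_cast this)

theorem result : ∀ l : ℕ, 1 ≤ l →
    (∀ ε : ℝ, 0 < ε → ∀ B : ℕ, ∃ (r : ℕ) (δ c C : ℝ) (P₀ : ℕ), 0 < δ ∧ 0 < c ∧ 0 < C ∧
      ∀ P : ℕ, P₀ ≤ P → ∀ [Fact P.Prime] (t : Fin l → ℕ), (∀ j, 1 ≤ t j) → ∀ g : ZMod P, orderOf g = P - 1 →
      -- the residue of `g ^ n` in an interval
      (∀ M H L K : ℕ, H ≤ P - 1 → K ≤ P → (P : ℝ) ^ (3 / 2 + ε) ≤ (H : ℝ) * K →
        Bounds t P r δ c C B M H (fun n => ∃ m : ℕ, L < m ∧ m ≤ L + K ∧ g ^ n = m) (K * H / P)) ∧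
      -- `g ^ n + s` in a coset of a subgroup
      (∀ (S : Subgroup (ZMod P)ˣ) (b : (ZMod P)ˣ) (s : ZMod P), s ≠ 0 → ∀ M H : ℕ, H ≤ P - 1 → 
        (P : ℝ) ^ (3 / 2 + ε) ≤ (Nat.card S : ℝ) * H →
        Bounds t P r δ c C B M H (fun n => ∃ u ∈ S, g ^ n + s = (b : ZMod P) * (u : ZMod P))
          (Nat.card S * H / P)) ∧
      -- `g ^ n + s` a primitive root
      (∀ s : ZMod P, s ≠ 0 → ∀ M H : ℕ, H ≤ P - 1 → (P : ℝ) ^ (1 / 2 + ε) ≤ H →
        Bounds t P r δ c C B M H (fun n => orderOf (g ^ n + s) = P - 1) ((P - 1).totient * H / P))) ∧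
    -- the asymptotic formulas
    (∀ ε η : ℝ, 0 < ε → 0 < η → ∃ (δ : ℝ) (P₀ : ℕ), 0 < δ ∧
      ∀ P : ℕ, P₀ ≤ P → ∀ [Fact P.Prime] (t : Fin l → ℕ), ∀ g : ZMod P, orderOf g = P - 1 →
      ∀ y : ℕ, 3 ≤ y → (y : ℝ) ≤ (P : ℝ) ^ δ →
      -- the residue of `g ^ n` in an interval
      (∀ M H L K : ℕ, H ≤ P - 1 → K ≤ P → (P : ℝ) ^ (3 / 2 + ε) ≤ (H : ℝ) * K →
        Rough t η M H y (fun n => ∃ m : ℕ, L < m ∧ m ≤ L + K ∧ g ^ n = m) (K * H / P)) ∧
      -- `g ^ n + s` in a coset of a subgroup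
      (∀ (S : Subgroup (ZMod P)ˣ) (b : (ZMod P)ˣ) (s : ZMod P), s ≠ 0 → ∀ M H : ℕ, H ≤ P - 1 → 
        (P : ℝ) ^ (3 / 2 + ε) ≤ (Nat.card S : ℝ) * H →
        Rough t η M H y (fun n => ∃ u ∈ S, g ^ n + s = (b : ZMod P) * (u : ZMod P))
          (Nat.card S * H / P)) ∧
      -- `g ^ n + s` a primitive root
      (∀ s : ZMod P, s ≠ 0 → ∀ M H : ℕ, H ≤ P - 1 → (P : ℝ) ^ (1 / 2 + ε) ≤ H →
        Rough t η M H y (fun n => orderOf (g ^ n + s) = P - 1) ((P - 1).totient * H / P))) := by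
  intro l hl
  constructor
  · intro ε hε B
    obtain ⟨r, δ, c, C, P₀, hδ, hc, hC, h⟩ := Pool.Agent.X55.Fam.dlog_lin l hl ε hε B
    refine ⟨r, δ, c, C, max P₀ 1, hδ, hc, hC, ?_⟩
    intro P hP _ t ht g hg
    have hP1 : 1 ≤ P := (le_max_right _ _).trans hP
    obtain ⟨h1, h2, h3⟩ := h P ((le_max_left _ _).trans hP) (fun j => (t j : ℤ)) (fun _ => 1)
      (fun j => by have := ht j; show (t j : ℤ) ≠ 0; omega) (adm t) g hg
    exact ⟨fun M H L K hH hK hHK => conv hP1 (h1 M H L K hH hK hHK),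
      fun S b s hs M H hH hSH => conv hP1 (h2 S b s hs M H hH hSH),
      fun s hs M H hH hPH => conv hP1 (h3 s hs M H hH hPH)⟩
  · intro ε η hε hη
    obtain ⟨δ, P₀, hδ, h⟩ := Pool.Agent.X55.Fam.dlog_linA l hl ε η hε hη
    refine ⟨δ, P₀, hδ, ?_⟩
    intro P hP _ t g hg y hy hyP
    obtain ⟨h1, h2, h3⟩ := h P hP (fun j => (t j : ℤ)) (fun _ => 1) (adm t) g hg y hy hyP
    exact ⟨fun M H L K hH hK hHK => convA (h1 M H L K hH hK hHK),
      fun S b s hs M H hH hSH => convA (h2 S b s hs M H hH hSH),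
      fun s hs M H hH hPH => convA (h3 s hs M H hH hPH)⟩

end Pool.Agent.Results.MP_d018b2_nt.DiscreteLogarithms
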