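import Mathlib
import Pool.Agent.X37.RD.Dil

/-!
# Almost prime tuplets `q r_j + 1` in all short intervals, `q` with restricted digits, uniformly in large `r_j`

Let `r_1, ..., r_ℓ ≤ y ^ E` be distinct positive integers, `x ≤ y ^ E`, `K = log_b (y / 3)`, and let `𝔖` be the singular
product of the problem. Among the `q` in `(x, x + y)` whose last `K` digits in base `b` belong to prescribed sets
`A 0, ..., A (K - 1)` there are at least `κ |A 0| ⋯ |A (K - 1)| 𝔖 / K ^ ℓ` for which all `q r_j + 1` have at most `R`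
prime factors, all of them larger than `b ^ (K / R)`, and at most `C |A 0| ⋯ |A (K - 1)| 𝔖 / K ^ ℓ` for which all
`q r_j + 1` are primes. The sets are arbitrary sets of digits with `|A 0| ⋯ |A (K - 1)| ≥ exp (- c K) b ^ K`.
-/

set_option autoImplicit false

namespace Pool.Agent.Results.MP_d018b2_nt.RestrictedDigits

open Finset Filter

/-- the number of residue classes `q mod p` with `p ∣ ∏ (q r + 1)` -/
def w (T : Finset ℕ) (p : ℕ) : ℕ := ((range p).filter (fun q => p ∣ ∏ r ∈ T, (q * r + 1))).card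

/-- the singular product of the forms `q r + 1`, `r ∈ T` -/
noncomputable def S (T : Finset ℕ) : ℝ :=
  ∏' p : Nat.Primes, (1 - (w T p : ℝ) / ((p : ℕ) : ℝ)) / (1 - 1 / ((p : ℕ) : ℝ)) ^ T.card

/-- the `q` with `x < q < x + y` for which all `q r + 1`, `r ∈ T`, have at most `R` prime factors (counted with
multiplicity), all of them larger than `z ^ (1 / R)` -/
def Almost (T : Finset ℕ) (x y R z : ℕ) : Set ℕ := {q | (x < q ∧ q < x + y) ∧
  ∀ r ∈ T, (∀ p : ℕ, p.Prime → p ∣ q * r + 1 → z < p ^ R) ∧ (q * r + 1).primeFactorsList.length ≤ R}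

/-- the `q` with `x < q < x + y` for which all `q r + 1`, `r ∈ T`, are primes -/
def Primes (T : Finset ℕ) (x y : ℕ) : Set ℕ := {q | (x < q ∧ q < x + y) ∧ ∀ r ∈ T, (q * r + 1).Prime}

/-- the number of the elements of `M` whose `i`-th digit in base `b` belongs to `A i` for all `i < K` -/
noncomputable def count (b K : ℕ) (A : ℕ → Finset ℕ) (M : Set ℕ) : ℕ :=
  {m : ℕ | m ∈ M ∧ ∀ i < K, m / b ^ i % b ∈ A i}.ncard

/-- the number of choices of the `K` digits -/
def choices (K : ℕ) (A : ℕ → Finset ℕ) : ℕ := ∏ i ∈ range K, (A i).card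

theorem result (l E : ℕ) (hl : 1 ≤ l) :
    ∃ c : ℝ, 0 < c ∧ ∃ R₀ : ℕ, 2 ≤ R₀ ∧ ∀ R : ℕ, R₀ ≤ R → ∀ b : ℕ, 2 ≤ b → ∃ κ C : ℝ, 0 < κ ∧ 0 < C ∧
      ∀ᶠ y : ℕ in atTop, ∀ T : Finset ℕ, T.card = l → (∀ r ∈ T, 1 ≤ r ∧ r ≤ y ^ E) →
        ∀ x : ℕ, x ≤ y ^ E → ∀ K : ℕ, K = Nat.log b (y / 3) →
        ∀ A : ℕ → Finset ℕ, (∀ i < K, A i ⊆ range b) → (b : ℝ) ^ K ≤ Real.exp (c * K) * choices K A →
        ((∃ d ∈ A 0, ∀ r ∈ T, (d * r + 1).Coprime b) →
          κ * choices K A * S T / (K : ℝ) ^ l ≤ count b K A (Almost T x y R (b ^ K))) ∧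
        (count b K A (Primes T x y) : ℝ) ≤ C * choices K A * S T / (K : ℝ) ^ l := by
  classical
  obtain ⟨c, hc, R₀, hR₀, h⟩ := Pool.Agent.X37.RD.int_poly l ((2 * E + 4) * l) hl
  refine ⟨c, hc, R₀, hR₀, fun R hR b hb => ?_⟩
  have h2R : 2 ≤ R := hR₀.trans hR
  obtain ⟨κ, C, hκ, hC, h1⟩ := h R hR b hb
  obtain ⟨v, Cv, hv, hCv, hW⟩ := Pool.Agent.Y816.PD.WG_bounds {0}
    (fun p hp => ⟨1, fun h hh => by
      rw [mem_singleton] at hh
      subst hh
      intro hd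
      exact hp.one_lt.ne' (Nat.dvd_one.1 hd)⟩) 1 (by decide) b hb
  obtain ⟨Q, hQ⟩ : ∃ Q : ℝ, Q = (2 ^ l) ^ ((l + l * l) * (4 * E)) := ⟨_, rfl⟩
  have hQ0 : 0 < Q := by rw [hQ]; positivity
  refine ⟨κ * v ^ l / Q, C * (2 * Cv ^ l), by positivity, by positivity, ?_⟩
  obtain ⟨K0, hK0⟩ := eventually_atTop.1 hW
  filter_upwards [h1, eventually_ge_atTop (3 * b ^ (K0 + 4 * l ^ 2 + 1)), eventually_ge_atTop 10] with
    y hy hyK hy4 T hTl hT x hx K hK A hA hprod
  obtain ⟨hKK, hb1, hb2⟩ := Pool.Agent.Y816.PD.log_three hb (K0 + 4 * l ^ 2 + 1) hyK hK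
  have hb0 : 0 < b := by omega
  have hbK0 : 0 < b ^ K := by positivity
  have hKb : K < b ^ K := Nat.lt_pow_self (by omega)
  have hKpos : (0 : ℝ) < K := by
    have : 0 < K := by omega
    exact_mod_cast this
  have hNA : Pool.Agent.Y816.PD.NA K A = ((choices K A : ℕ) : ℝ) := by
    unfold Pool.Agent.Y816.PD.NA choices
    push_cast
    rfl
  have hNA0 : (0 : ℝ) ≤ (choices K A : ℝ) := Nat.cast_nonneg _
  have e1 : y ≤ (b ^ K) ^ 4 := by
    calc y ≤ 3 * b * b ^ K := hb2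
      _ ≤ b ^ 2 * b * b ^ K := by
          apply Nat.mul_le_mul_right
          apply Nat.mul_le_mul_right
          nlinarith
      _ = b ^ (K + 3) := by ring
      _ ≤ b ^ (K * 4) := Nat.pow_le_pow_right hb0 (by omega)
      _ = (b ^ K) ^ 4 := pow_mul _ _ _
  have e2 : y ^ E ≤ (b ^ K) ^ (4 * E) := by
    calc y ^ E ≤ ((b ^ K) ^ 4) ^ E := Nat.pow_le_pow_left e1 E
      _ = (b ^ K) ^ (4 * E) := (pow_mul _ _ _).symm
  have hz2 : 2 ≤ b ^ K := by omega
  have hTz : ∀ r ∈ T, 1 ≤ r ∧ r ≤ (b ^ K) ^ (4 * E) := fun r hr => ⟨(hT r hr).1, (hT r hr).2.trans e2⟩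
  obtain ⟨hs1, hs2⟩ := Pool.Agent.X37.RD.SD_bounds (D := 4 * E) hz2 (by rw [hTl]; omega) hTz
  have hS : Pool.Agent.W218.MU.SD T = S T := rfl
  rw [hS] at hs1 hs2
  obtain ⟨hW1, hW2⟩ := hK0 K (by omega) 0
  rw [pow_one] at hW1 hW2
  have hsize : ∀ m : ℕ, m < x + 2 * y → ((Pool.Agent.X37.RD.DP T).eval (m : ℤ)).natAbs ≤ y ^ ((2 * E + 4) * l) := by
    intro m hm
    rw [Pool.Agent.X37.RD.DP_eval, Int.natAbs_natCast, pow_mul, ← hTl, ← prod_const]
    apply Finset.prod_le_prod (fun _ _ => Nat.zero_le _)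
    intro r hr
    have hy1 : 1 ≤ y ^ E := Nat.one_le_pow _ _ (by omega)
    have h4 : m ≤ y ^ E * y ^ 2 := by
      have : y ^ E + 2 * y ≤ y ^ E * y ^ 2 := by
        have a1 : y ≤ y ^ E * y := Nat.le_mul_of_pos_left _ (by omega)
        have a2 : y ^ E ≤ y ^ E * y := Nat.le_mul_of_pos_right _ (by omega)
        have a3 : y ^ E * (3 * y) ≤ y ^ E * y ^ 2 := Nat.mul_le_mul_left _ (by nlinarith)
        nlinarith
      omega
    calc m * r + 1 ≤ (y ^ E * y ^ 2) * y ^ E + 1 := by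
          have := Nat.mul_le_mul h4 (hT r hr).2
          omega
      _ ≤ (y ^ E * y ^ 2) * y ^ E * y ^ 2 := by
          have h5 : 1 ≤ (y ^ E * y ^ 2) * y ^ E := Nat.one_le_iff_ne_zero.2 (by positivity)
          have h6 : 2 ≤ y ^ 2 := by nlinarith
          nlinarith
      _ = y ^ (2 * E + 4) := by ring
  obtain ⟨h2, h3⟩ := hy (Pool.Agent.X37.RD.DP T) (by rw [← hTl]; exact Pool.Agent.X37.RD.DP_deg T)
    (Pool.Agent.X37.RD.DP_adm T) x hsize K hK A hA (by rw [hNA]; exact hprod)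
  rw [hNA, Pool.Agent.X37.RD.WG_DP] at h2 h3
  obtain ⟨F, hF⟩ : ∃ F, F = Pool.Agent.X37.RD.FT T (b ^ K) := ⟨_, rfl⟩
  obtain ⟨W, hWe⟩ : ∃ W, W = Pool.Agent.Y816.PD.WG (Pool.Agent.Y816.PD.TP {0} 0) (b ^ K) := ⟨_, rfl⟩
  rw [← hF] at hs1 hs2 h2 h3
  rw [← hWe] at hW1 hW2 h2 h3
  rw [hTl] at hs2 h2 h3
  rw [← hQ] at hs2
  have hW0 : 0 < W := lt_of_lt_of_le (by positivity) hW1
  have hS0 : 0 ≤ S T := by
    have h5 : 0 ≤ F := by
      by_contra hneg
      push Not at hneg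
      have h6 : Q * F < F / 2 := by
        have : (1 : ℝ) ≤ Q := by rw [hQ]; exact one_le_pow₀ (one_le_pow₀ (by norm_num))
        nlinarith
      linarith
    linarith
  have hF0 : 0 ≤ F := by
    by_contra hneg
    push Not at hneg
    have : Q * F < 0 := mul_neg_of_pos_of_neg hQ0 hneg
    linarith
  constructor
  · rintro ⟨d, hd, hd1⟩
    have h4 : κ * (choices K A : ℝ) * (F * W ^ l) ≤ count b K A (Almost T x y R (b ^ K)) := by
      refine (h2 ⟨d, hd, ?_⟩).trans (Nat.cast_le.2 ?_)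
      · rw [Pool.Agent.X37.RD.DP_eval, Int.natAbs_natCast]
        exact Nat.Coprime.prod_left hd1
      · unfold Pool.Agent.Y816.PD.DC count
        apply Set.ncard_le_ncard
        · rintro m ⟨⟨hm1, hm3, hm4⟩, hm5⟩
          rw [Pool.Agent.X37.RD.DP_eval, Int.natAbs_natCast] at hm4
          refine ⟨⟨hm1, fun r hr => ?_⟩, hm5⟩
          have h5 : m * r + 1 ∣ ∏ r ∈ T, (m * r + 1) := Finset.dvd_prod_of_mem (fun r => m * r + 1) hr
          refine ⟨fun p hp hpd => hm3 p hp ((Pool.Agent.X37.RD.DP_dvd T m p).2 (hpd.trans h5)), ?_⟩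
          have h6 : ∏ r ∈ T, (m * r + 1) ≠ 0 := by
            rw [Finset.prod_ne_zero_iff]
            intro r _
            omega
          exact ((Nat.primeFactorsList_sublist_of_dvd h5 h6).length_le).trans hm4
        · apply (finite_toSet (Ioo x (x + y))).subset
          rintro m ⟨⟨hm, -⟩, -⟩
          rw [mem_coe, mem_Ioo]
          exact hm
    refine le_trans ?_ h4
    have h5 : S T / Q * (v / (K : ℝ)) ^ l ≤ F * W ^ l := by
      apply mul_le_mul _ _ (by positivity) hF0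
      · rw [div_le_iff₀ hQ0]
        linarith
      · exact pow_le_pow_left₀ (by positivity) hW1 l
    calc κ * v ^ l / Q * (choices K A : ℝ) * S T / (K : ℝ) ^ l =
        κ * (choices K A : ℝ) * (S T / Q * (v / (K : ℝ)) ^ l) := by
          rw [div_pow]
          field_simp
      _ ≤ κ * (choices K A : ℝ) * (F * W ^ l) := mul_le_mul_of_nonneg_left h5 (by positivity)
  · have h4 : (count b K A (Primes T x y) : ℝ) ≤ C * (choices K A : ℝ) * (F * W ^ l) := by
      refine le_trans (Nat.cast_le.2 ?_) h3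
      unfold Pool.Agent.Y816.PD.DC count
      apply Set.ncard_le_ncard
      · rintro m ⟨⟨hm1, hm3⟩, hm5⟩
        refine ⟨⟨hm1, fun p hp hpd => ?_⟩, hm5⟩
        rw [Pool.Agent.X37.RD.DP_dvd, hp.prime.dvd_finsetProd_iff] at hpd
        obtain ⟨r, hr, hd⟩ := hpd
        rw [(Nat.prime_dvd_prime_iff_eq hp (hm3 r hr)).1 hd]
        have h5 : m ≤ m * r := Nat.le_mul_of_pos_right _ (hT r hr).1
        have h6 : m * r + 1 ≤ (m * r + 1) ^ R := Nat.le_self_pow (by omega) _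
        have h7 := Nat.mod_le m (b ^ K)
        omega
      · apply (finite_toSet (Ioo x (x + y))).subset
        rintro m ⟨⟨hm, -⟩, -⟩
        rw [mem_coe, mem_Ioo]
        exact hm
    refine h4.trans ?_
    have h5 : F * W ^ l ≤ 2 * S T * (Cv / (K : ℝ)) ^ l := by
      apply mul_le_mul _ _ (by positivity) (by linarith)
      · linarith
      · exact pow_le_pow_left₀ hW0.le hW2 l
    calc C * (choices K A : ℝ) * (F * W ^ l) ≤ C * (choices K A : ℝ) * (2 * S T * (Cv / (K : ℝ)) ^ l) :=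
          mul_le_mul_of_nonneg_left h5 (by positivity)
      _ = C * (2 * Cv ^ l) * choices K A * S T / (K : ℝ) ^ l := by
          rw [div_pow]
          field_simp

end Pool.Agent.Results.MP_d018b2_nt.RestrictedDigits
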